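import Pool.Agent.Lib.SIE.Defs

/-! Generic points for quotients of holomorphic tensors. -/

open scoped Topology
open Set Filter Metric

noncomputable section

namespace Pool.Agent.Lib.SIE

open Pool.Agent.Lib.SV (E)
open Pool.Agent.Lib.HS32

variable {n k : ℕ} {M : Mf n} {σ : Type} [Fintype σ] {B c : M.Fam (σ → ℂ)} {f : M.X → ℂ}
  {z : Fin k → M.X → ℂ} {e e' : M.Ch} {x : M.X}

theorem clop {X : Type} [TopologicalSpace X] [PreconnectedSpace X] {p : X → Prop}
    (h : ∀ x, (∃ᶠ y in 𝓝 x, ∀ᶠ u in 𝓝 y, p u) → ∀ᶠ u in 𝓝 x, p u) {y : X}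
    (hy : ∀ᶠ u in 𝓝 y, p u) (x : X) : p x := by
  have : {x | ∀ᶠ u in 𝓝 x, p u} = univ := IsClopen.eq_univ
    ⟨isClosed_of_closure_subset fun x hx => h x (mem_closure_iff_frequently.1 hx),
      isOpen_setOfPred_eventually_nhds⟩ ⟨y, hy⟩
  exact Eventually.self_of_nhds (show x ∈ {x | ∀ᶠ u in 𝓝 x, p u} from this ▸ mem_univ x)

theorem dns {X : Type} [TopologicalSpace X] [PreconnectedSpace X] {S : Set X}
    (h : ∀ x, (∃ᶠ y in 𝓝 x, ∀ᶠ u in 𝓝 y, u ∉ S) → ∀ᶠ u in 𝓝 x, u ∉ S) (hS : S.Nonempty) :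
    Dense S := fun y => by
  by_contra hy
  obtain ⟨x, hx⟩ := hS
  exact clop h (not_frequently.1 fun k => hy (mem_closure_iff_frequently.2 k)) x hx

theorem up (hx : x ∈ e.source) {p : M.X → Prop} :
    (∀ᶠ y in 𝓝 x, p y) ↔ ∀ᶠ w in 𝓝 (e x), p (e.symm w) := by
  rw [← e.symm_map_nhds_eq hx, eventually_map]

theorem up' (hx : x ∈ e.source) {p : M.X → Prop} :
    (∃ᶠ y in 𝓝 x, p y) ↔ ∃ᶠ w in 𝓝 (e x), p (e.symm w) := by
  rw [← e.symm_map_nhds_eq hx, frequently_map]

theorem fr_dense {S : Set M.X} (hS : Dense S) {w : E n} (hw : w ∈ e.target) :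
    ∃ᶠ v in 𝓝 w, e.symm v ∈ S := by
  have := (up' (e.map_target hw)).1 (mem_closure_iff_frequently.1 (hS (e.symm w)))
  rwa [e.right_inv hw] at this

theorem all_ev {p : M.Ch → E n → Prop} (h : M.All p) (he : e ∈ M.C) {w : E n}
    (hw : w ∈ e.target) : ∀ᶠ v in 𝓝 w, p e v :=
  (e.open_target.eventually_mem hw).mono fun v hv => h e he v hv

theorem holN_i {ι : Type} [Fintype ι] {g : E n → ι → ℂ} {w : E n} (h : HolN g w) (i : ι) :
    HolN (fun v => g v i) w := h.mono fun _ l => differentiableAt_pi.1 l i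

theorem fd_i {ι : Type} [Fintype ι] {g : E n → ι → ℂ} {w : E n} (h : HolN g w) (t : E n) (j : ι) :
    fderiv ℂ g w t j = fderiv ℂ (fun y => g y j) w t :=
  congrFun (congrArg (fun L : E n →L[ℂ] ι → ℂ => L t)
    (fderiv_pi fun j => (holN_i h j).self_of_nhds)) j

theorem Dn.mem (hB : Dn M B) (he : e ∈ M.C) (hx : x ∈ e.source) (h : B e (e x) ≠ 0) :
    x ∈ Oo M B := fun e' he' hx' k => by
  obtain ⟨C, hC⟩ := hB.cmp e he e' he' x hx hx'
  have := hC.self_of_nhds
  rw [k, norm_zero, mul_zero] at this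
  exact h (norm_le_zero_iff.1 this)

theorem Dn.mem' (hB : Dn M B) (he : e ∈ M.C) {w : E n} (hw : w ∈ e.target) :
    e.symm w ∈ Oo M B ↔ B e w ≠ 0 :=
  ⟨fun h => e.right_inv hw ▸ h e he (e.map_target hw),
    fun h => hB.mem he (e.map_target hw) (by rwa [e.right_inv hw])⟩

theorem Dn.opn (hB : Dn M B) : IsOpen (Oo M B) := isOpen_iff_eventually.2 fun x hx => by
  obtain ⟨e, he, hs⟩ := M.cov x
  have hz := e.map_source hs
  refine (up hs).2 ?_
  filter_upwards [(hB.hol e he _ hz).self_of_nhds.continuousAt.eventually_ne (hx e he hs),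
    e.open_target.eventually_mem hz] with w h1 h2 using (hB.mem' he h2).2 h1

theorem Dn.dense [M.Cpt] (hB : Dn M B) (h : (Oo M B).Nonempty) : Dense (Oo M B) := by
  refine dns (fun x hx => ?_) h
  obtain ⟨e, he, hs⟩ := M.cov x
  have hz := e.map_source hs
  have := SV.H85.eventually_zero_of_frequently (hB.hol e he _ hz) ((((up' hs).1 hx).and_eventually
    (e.open_target.eventually_mem hz)).mono fun w k => by
      have l := (up (e.map_target k.2)).1 k.1
      rw [e.right_inv k.2] at l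
      filter_upwards [l, e.open_target.eventually_mem k.2] with v l1 l2
      exact not_not.1 fun l3 => l1 ((hB.mem' he l2).2 l3))
  refine (up hs).2 ?_
  filter_upwards [this, e.open_target.eventually_mem hz] with w h1 h2 h3
  exact (hB.mem' he h2).1 h3 h1

theorem Mu.quo (hB : Dn M B) (hc : Mu M B f c) (he : e ∈ M.C) {w : E n} (hw : w ∈ e.target)
    {i : σ} (h : B e w i ≠ 0) : ∀ᶠ v in 𝓝 w, B e v i ≠ 0 ∧ c e v i = f (e.symm v) * B e v i := by
  filter_upwards [(holN_i (hB.hol e he w hw) i).self_of_nhds.continuousAt.eventually_ne h,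
    all_ev hc he hw] with v h1 h2
  exact ⟨h1, congrFun (h2.2 fun k => h1 (congrFun k i)) i⟩

theorem Mu.hol (hB : Dn M B) (hc : Mu M B f c) (he : e ∈ M.C) {w : E n} (hw : w ∈ e.target)
    (h : B e w ≠ 0) : HolN (fun v => f (e.symm v)) w := by
  obtain ⟨i, hi⟩ := Function.ne_iff.1 h
  filter_upwards [(hc.quo hB he hw hi).eventually_nhds, holN_i (hB.hol e he w hw) i,
    holN_i (hc e he w hw).1 i] with v h1 h2 h3
  refine (h3.fun_mul (h2.fun_inv h1.self_of_nhds.1)).congr_of_eventuallyEq (h1.mono fun u l => ?_)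
  beta_reduce
  rw [l.2, mul_inv_cancel_right₀ l.1]

theorem Mu.cont (hB : Dn M B) (hc : Mu M B f c) (hx : x ∈ Oo M B) : ContinuousAt f x := by
  obtain ⟨e, he, hs⟩ := M.cov x
  have := ((hc.hol hB he (e.map_source hs) (hx e he hs)).self_of_nhds.continuousAt.comp
    (e.continuousAt hs))
  exact this.congr ((e.open_source.eventually_mem hs).mono fun y hy => by
    simp only [Function.comp, e.left_inv hy])

theorem trans_hol (he : e ∈ M.C) (he' : e' ∈ M.C) (hx : x ∈ e.source) (hx' : x ∈ e'.source) :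
    ∀ᶠ w in 𝓝 (e' x), DifferentiableAt ℂ (e ∘ e'.symm) w ∧ e.symm (e (e'.symm w)) = e'.symm w := by
  have o := e'.isOpen_inter_preimage_symm e.open_source
  filter_upwards [o.eventually_mem ⟨e'.map_source hx', by
    rw [mem_preimage, e'.left_inv hx']; exact hx⟩] with w hw
  exact ⟨(M.hol e he e' he').differentiableAt (o.mem_nhds hw), e.left_inv hw.2⟩

theorem rd_comp (he : e ∈ M.C) (he' : e' ∈ M.C) (hx : x ∈ e.source) (hx' : x ∈ e'.source) :
    rd M z e' =ᶠ[𝓝 (e' x)] rd M z e ∘ (e ∘ e'.symm) :=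
  (trans_hol he he' hx hx').mono fun w l => funext fun j => by
    simp only [rd, Function.comp, l.2]

theorem rk_of (he : e ∈ M.C) (hx : x ∈ e.source) (h : HolN (rd M z e) (e x))
    (hs : Function.Surjective (fderiv ℂ (rd M z e) (e x))) : Rk M z x := fun e' he' hx' => by
  have t := trans_hol he he' hx hx'
  have t' := trans_hol he' he hx' hx
  have a : (e ∘ e'.symm) (e' x) = e x := by simp only [Function.comp, e'.left_inv hx']
  have a' : (e' ∘ e.symm) (e x) = e' x := by simp only [Function.comp, e.left_inv hx]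
  have h1 : HolN (rd M z e') (e' x) := by
    have := t.self_of_nhds.1.continuousAt.tendsto
    rw [a] at this
    filter_upwards [(rd_comp (z := z) he he' hx hx').eventually_nhds, t, this.eventually h]
      with w l1 l2 l3
    exact (l3.comp w l2.1).congr_of_eventuallyEq l1
  refine ⟨h1, ?_⟩
  rw [(rd_comp he' he hx' hx).fderiv_eq, fderiv_comp _ (a' ▸ h1.self_of_nhds) t'.self_of_nhds.1,
    a'] at hs
  exact Function.Surjective.of_comp hs

theorem surj_iff (L : E n →L[ℂ] E k) : Function.Surjective L ↔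
    ∃ v : Fin k → E n, (Matrix.of fun j a => L (v a) j).det ≠ 0 := by
  constructor
  · intro h
    choose v hv using fun a => h (Pi.single a 1)
    refine ⟨v, ?_⟩
    have : (Matrix.of fun j a => L (v a) j) = 1 := by
      ext j a
      rw [Matrix.of_apply, hv, Matrix.one_apply, Pi.single_apply]
    rw [this, Matrix.det_one]
    exact one_ne_zero
  · rintro ⟨v, hv⟩ y
    obtain ⟨t, ht⟩ := Matrix.mulVec_surjective_iff_isUnit.2
      ((Matrix.isUnit_iff_isUnit_det _).2 hv.isUnit) y
    refine ⟨∑ a, t a • v a, ?_⟩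
    rw [← ht, map_sum]
    funext j
    simp only [Finset.sum_apply, map_smul, Pi.smul_apply, smul_eq_mul, Matrix.mulVec,
      dotProduct, Matrix.of_apply, mul_comm]

theorem hol_fd {F : Type} [NormedAddCommGroup F] [NormedSpace ℂ F] [CompleteSpace F]
    {g : E n → F} {w : E n} (h : HolN g w) (v : E n) : HolN (fun u => fderiv ℂ g u v) w := by
  obtain ⟨O, h1, hO, hw⟩ := _root_.eventually_nhds_iff.1 h
  filter_upwards [hO.mem_nhds hw] with u hu
  exact (SV.H85.differentiableOn_fderiv_apply hO (fun u hu => (h1 u hu).differentiableWithinAt)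
    v).differentiableAt (hO.mem_nhds hu)

theorem hol_det {A : E n → Matrix (Fin k) (Fin k) ℂ} {w : E n}
    (h : ∀ j a, HolN (fun u => A u j a) w) : HolN (fun u => (A u).det) w := by
  filter_upwards [eventually_all.2 fun j => eventually_all.2 (h j)] with u hu
  simp only [Matrix.det_apply']
  exact DifferentiableAt.fun_sum fun s _ =>
    (HasFDerivAt.finsetProd (fun a _ => (hu (s a) a).hasFDerivAt)).differentiableAt.const_mul _

theorem surj_ev {g : E n → E k} {w : E n} (h : HolN g w)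
    (hs : Function.Surjective (fderiv ℂ g w)) :
    ∀ᶠ u in 𝓝 w, Function.Surjective (fderiv ℂ g u) := by
  obtain ⟨v, hv⟩ := (surj_iff _).1 hs
  have := (hol_det (A := fun u => Matrix.of fun j a => fderiv ℂ g u (v a) j) fun j a =>
    holN_i (hol_fd h (v a)) j).self_of_nhds.continuousAt.eventually_ne hv
  exact this.mono fun u l => (surj_iff _).2 ⟨v, l⟩

theorem rk_open : IsOpen {x | Rk M z x} := isOpen_iff_eventually.2 fun x hx => by
  obtain ⟨e, he, hs⟩ := M.cov x
  obtain ⟨h1, h2⟩ := hx e he hs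
  filter_upwards [(e.continuousAt hs).eventually (h1.eventually_nhds.and (surj_ev h1 h2)),
    e.open_source.eventually_mem hs] with y l1 l2 using rk_of he l2 l1.1 l1.2

theorem ne_dn {g : E n → ℂ} {w : E n} (hg : HolN g w) (h : ∃ᶠ u in 𝓝 w, g u ≠ 0) :
    ∀ᶠ y in 𝓝 w, ∃ᶠ u in 𝓝 y, g u ≠ 0 := by
  by_contra k
  refine h ((SV.H85.eventually_zero_of_frequently hg ((not_eventually.1 k).mono fun y hy =>
    (not_frequently.1 hy).mono fun w hw => not_not.1 hw)).mono fun w hw => not_not.2 hw)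

theorem prod_ne {ι : Type} [Fintype ι] {g : ι → E n → ℂ} {w : E n} (hg : ∀ j, HolN (g j) w)
    (h : ∀ j, ∃ᶠ u in 𝓝 w, g j u ≠ 0) : ∀ᶠ y in 𝓝 w, ∃ᶠ u in 𝓝 y, ∀ j, g j u ≠ 0 := by
  obtain ⟨O, h1, hO, hw⟩ := _root_.eventually_nhds_iff.1 (eventually_all.2 fun j =>
    (ne_dn (hg j) (h j)).and (hg j))
  have : Dense (⋂₀ range fun j => {u | u ∈ O ∧ g j u ≠ 0} ∪ (closure O)ᶜ) := by
    refine (finite_range _).dense_sInter ?_ ?_
    · rintro _ ⟨j, rfl⟩
      refine IsOpen.union (isOpen_iff_eventually.2 fun u hu => ?_) isClosed_closure.isOpen_compl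
      exact (hO.eventually_mem hu.1).and ((h1 u hu.1 j).2.continuousAt.eventually_ne hu.2)
    · rintro _ ⟨j, rfl⟩ u
      by_cases hu : u ∈ closure O
      · refine closure_mono subset_union_left (closure_minimal (fun v hv => ?_) isClosed_closure hu)
        exact mem_closure_iff_frequently.2
          (((h1 v hv j).1.and_eventually (hO.eventually_mem hv)).mono fun _ l => l.symm)
      · exact subset_closure (Or.inr hu)
  filter_upwards [hO.mem_nhds hw] with y hy
  refine ((mem_closure_iff_frequently.1 (this y)).and_eventually (hO.eventually_mem hy)).mono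
    fun u l j => ?_
  rcases l.1 _ ⟨j, rfl⟩ with r | r
  · exact r.2
  · exact absurd (subset_closure l.2) r

theorem rk_dense [M.Cpt] (hz : ∀ j, Mr M (z j)) (h : ∃ x, Rk M z x) : Dense {x | Rk M z x} := by
  refine dns (fun x hx => ?_) h
  choose τ _ B c hB hn hc using hz
  obtain ⟨e, he, hs⟩ := M.cov x
  have hw := e.map_source hs
  have : ∀ j, ∃ i, ∃ᶠ u in 𝓝 (e x), B j e u i ≠ 0 := fun j => by
    by_contra k
    refine (fr_dense ((hB j).dense (hn j)) hw) ?_
    filter_upwards [eventually_all.2 fun i => not_frequently.1 (not_exists.1 k i),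
      e.open_target.eventually_mem hw] with u l1 l2 l3
    exact ((hB j).mem' he l2).1 l3 (funext fun i => not_not.1 (l1 i))
  choose I hI using this
  have pn := prod_ne (fun j => holN_i ((hB j).hol e he _ hw) (I j)) hI
  let N : (Fin k → E n) → E n → Matrix (Fin k) (Fin k) ℂ := fun v u => Matrix.of fun j a =>
    B j e u (I j) * fderiv ℂ (fun u => c j e u (I j)) u (v a) -
      c j e u (I j) * fderiv ℂ (fun u => B j e u (I j)) u (v a)
  have hN : ∀ v, ∀ u ∈ e.target, HolN (fun u => (N v u).det) u := fun v u hu =>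
    hol_det fun j a => by
      have b1 := holN_i ((hB j).hol e he _ hu) (I j)
      have b2 := holN_i (hc j e he _ hu).1 (I j)
      filter_upwards [b1, b2, hol_fd b1 (v a), hol_fd b2 (v a)] with y l1 l2 l3 l4
      exact (l1.fun_mul l4).fun_sub (l2.fun_mul l3)
  have key : ∀ u ∈ e.target, (∀ j, B j e u (I j) ≠ 0) → HolN (rd M z e) u ∧ ∀ v, (N v u).det =
      (∏ j, B j e u (I j) ^ 2) * (Matrix.of fun j a => fderiv ℂ (rd M z e) u (v a) j).det := by
    intro u hu hb
    have h1 := fun j => (hc j).hol (hB j) he hu (fun l => hb j (congrFun l _))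
    have h2 : HolN (rd M z e) u := (eventually_all.2 h1).mono fun y l => differentiableAt_pi.2 l
    refine ⟨h2, fun v => ?_⟩
    rw [← Matrix.det_mul_column]
    refine congrArg _ (Matrix.ext fun j a => ?_)
    have q := (hc j).quo (hB j) he hu (hb j)
    have b1 := (holN_i ((hB j).hol e he _ hu) (I j)).self_of_nhds
    have r : fderiv ℂ (rd M z e) u (v a) j = fderiv ℂ (fun y => z j (e.symm y)) u (v a) :=
      fd_i h2 _ _
    simp only [N, Matrix.of_apply]
    rw [r, EventuallyEq.fderiv_eq (q.mono fun y l => l.2), fderiv_fun_mul (h1 j).self_of_nhds b1,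
      q.self_of_nhds.2]
    simp only [add_apply, smul_apply, smul_eq_mul]
    ring
  obtain ⟨r, hr, hU⟩ := Metric.eventually_nhds_iff_ball.1
    (pn.and (e.open_target.eventually_mem hw))
  obtain ⟨y, ⟨y1, y2⟩, y3⟩ := (hx.and_eventually (e.open_source.eventually_mem hs)).and_eventually
    ((e.continuousAt hs).eventually (ball_mem_nhds _ hr)) |>.exists
  have z0 : ∀ v, ∀ u ∈ ball (e x) r, (N v u).det = 0 := fun v u hu => by
    refine SV.H85.eq_zero_of_convex (f := fun u => (N v u).det) isOpen_ball (convex_ball _ _)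
      (fun u hu => (hN v u (hU u hu).2).self_of_nhds.differentiableWithinAt) y3 ?_ hu
    filter_upwards [((up y2).1 y1).eventually_nhds, isOpen_ball.eventually_mem y3] with w l1 l2
    by_contra l3
    obtain ⟨t, ⟨⟨t1, t2⟩, t3⟩, t4⟩ := ((((hU w l2).1.and_eventually l1).and_eventually
      ((hN v w (hU w l2).2).self_of_nhds.continuousAt.eventually_ne l3)).and_eventually
      (e.open_target.eventually_mem (hU w l2).2)).exists
    obtain ⟨k1, k2⟩ := key t t4 t1
    refine t2 (rk_of he (e.map_target t4) (by rwa [e.right_inv t4]) ?_)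
    rw [e.right_inv t4]
    rw [k2] at t3
    exact (surj_iff _).2 ⟨v, right_ne_zero_of_mul t3⟩
  filter_upwards [e.open_source.eventually_mem hs,
    (e.continuousAt hs).eventually (ball_mem_nhds _ hr)] with u u1 u2 u3
  obtain ⟨h1, h2⟩ := u3 e he u1
  obtain ⟨v, hv⟩ := (surj_iff _).1 h2
  obtain ⟨t, ⟨t1, t2⟩, t3⟩ := (((hU _ u2).1.and_eventually ((hol_det (A := fun u => Matrix.of
    fun j a => fderiv ℂ (rd M z e) u (v a) j) fun j a => holN_i (hol_fd h1 (v a))
      j).self_of_nhds.continuousAt.eventually_ne hv)).and_eventually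
        (isOpen_ball.eventually_mem u2)).exists
  have := z0 v t t3
  rw [(key t (hU t t3).2 t1).2] at this
  exact mul_ne_zero (Finset.prod_ne_zero_iff.2 fun j _ => pow_ne_zero 2 (t1 j)) t2 this

/-- Maximality of the rank gives the inclusion of the kernels. -/
theorem ker_of (h : ∀ x, ¬Rk M (Fin.cons f z) x) (he : e ∈ M.C) {w : E n} (hw : w ∈ e.target)
    (hz : Rk M z (e.symm w)) (hf : HolN (fun v => f (e.symm v)) w) (v : E n)
    (hv : fderiv ℂ (rd M z e) w v = 0) : fderiv ℂ (fun v => f (e.symm v)) w v = 0 := by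
  by_contra hn
  obtain ⟨h1, h2⟩ := hz e he (e.map_target hw)
  rw [e.right_inv hw] at h1 h2
  have a : ∀ j, HolN (fun u => Fin.cons (α := fun _ => M.X → ℂ) f z j (e.symm u)) w := fun j =>
    Fin.cases hf (fun j => holN_i h1 j) j
  refine h _ (rk_of he (e.map_target hw) ?_ ?_) <;> rw [e.right_inv hw]
  · exact (eventually_all.2 a).mono fun y l => differentiableAt_pi.2 l
  intro y
  obtain ⟨u, hu⟩ := h2 (Fin.tail y)
  have r : ∀ t j, fderiv ℂ (rd M z e) w t j = fderiv ℂ (fun y => z j (e.symm y)) w t := fd_i h1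
  refine ⟨u + ((y 0 - fderiv ℂ (fun v => f (e.symm v)) w u) /
    fderiv ℂ (fun v => f (e.symm v)) w v) • v, funext fun j => ?_⟩
  unfold rd
  rw [fderiv_pi fun j => (a j).self_of_nhds, ContinuousLinearMap.pi_apply, map_add, map_smul]
  refine Fin.cases ?_ (fun j => ?_) j
  · simp only [Fin.cons_zero, smul_eq_mul]
    rw [div_mul_cancel₀ _ hn, add_sub_cancel]
  · simp only [Fin.cons_succ]
    rw [← r, ← r, hu, hv, Pi.zero_apply, smul_zero, add_zero]
    rfl

theorem rk_le (h : Rk M z x) : k ≤ n := by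
  obtain ⟨e, he, hs⟩ := M.cov x
  simpa using LinearMap.finrank_le_finrank_of_surjective
    (f := (fderiv ℂ (rd M z e) (e x)).toLinearMap) (h e he hs).2

end Pool.Agent.Lib.SIE
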