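import Pool.Agent.Lib.SIE.Main
import Pool.Agent.Lib.KT.Defs

/-! Holomorphic tensors are denominators. -/

open scoped Topology Matrix
open Set Filter Metric

noncomputable section

namespace Pool.Agent.Lib.SIE

open Pool.Agent.Lib.SV (E)
open Pool.Agent.Lib.HS32 Pool.Agent.Lib.KT
open Pool.Agent.Lib.RAA (kp kq)

variable {n : ℕ} {M : Mf n}

theorem dn_of {σ : Type} [Fintype σ] {B : M.Fam (σ → ℂ)} {T : M.Ch → M.Ch → M.X → Matrix σ σ ℂ}
    (hol : M.All fun e z => HolN (B e) z)
    (h : M.Ov fun e e' x => B e (e x) = T e e' x *ᵥ B e' (e' x))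
    (hT : M.Ov fun e e' x => ∀ i j, ContinuousAt (fun y => T e e' y i j) x) : Dn M B := by
  refine ⟨hol, fun e he e' he' x hx hx' => ⟨∑ i, ∑ j, ‖T e e' x i j‖ + 1, ?_⟩⟩
  have c : ContinuousAt (fun y => ∑ i, ∑ j, ‖T e e' y i j‖) x := tendsto_finsetSum _ fun i _ =>
    tendsto_finsetSum _ fun j _ => (hT e he e' he' x hx hx' i j).norm
  filter_upwards [c.eventually_lt continuousAt_const (lt_add_one _),
    e.open_source.eventually_mem hx, e'.open_source.eventually_mem hx'] with y h1 h2 h3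
  rw [h e he e' he' y h2 h3]
  refine (pi_norm_le_iff_of_nonneg (by positivity)).2 fun i => (norm_sum_le _ _).trans ?_
  refine le_trans ?_ (mul_le_mul_of_nonneg_right ((Finset.single_le_sum (f := fun i => ∑ j,
    ‖T e e' y i j‖) (fun _ _ => by positivity) (Finset.mem_univ i)).trans h1.le) (norm_nonneg _))
  rw [Finset.sum_mul]
  exact Finset.sum_le_sum fun j _ => (norm_mul_le _ _).trans
    (mul_le_mul_of_nonneg_left (norm_le_pi_norm _ j) (norm_nonneg _))

theorem cont_J : M.Ov fun e e' x => ContinuousAt (M.J e e') x := fun e he e' he' x hx hx' =>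
  continuousAt_pi.2 fun i => continuousAt_pi.2 fun j => ContinuousAt.comp (f := e')
    ((mCHN n _ _ ((mTR n M).2.1 e he e' he' x hx hx').1).2.1 i j).continuousAt (e'.continuousAt hx')

theorem tn_dn (τ : Tn M) : Dn M τ.s := by
  refine dn_of (T := fun e e' x => ((M.J e e' x).det ^ τ.B)⁻¹ • kp τ.N (M.J e e' x)) τ.holN
    (fun e he e' he' x hx hx' => ?_) fun e he e' he' x hx hx' I K => ?_
  · beta_reduce
    rw [Matrix.smul_mulVec]
    exact τ.tw.cmp e he e' he' x hx hx'
  · have c := cont_J e he e' he' x hx hx'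
    have d : ContinuousAt (fun y => ∏ a, M.J e e' y (I a) (K a)) x :=
      tendsto_finsetProd _ fun a _ => continuousAt_pi.1 (continuousAt_pi.1 c _) _
    exact ((((continuous_id.matrix_det).continuousAt.comp c).pow _).inv₀ (pow_ne_zero _
      ((mTR n M).2.1 e he e' he' x hx hx').2.1)).mul d

theorem tn_O (τ : Tn M) : Oo M τ.s = τ.O := Set.ext fun x =>
  ⟨fun h => h _ ((mTR n M).1 x).1 ((mTR n M).1 x).2,
    fun h => (tn_dn τ).mem ((mTR n M).1 x).1 ((mTR n M).1 x).2 h⟩

/-- A function whose product with a tensor extends holomorphically. -/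
theorem tn_mr [M.Cpt] (τ : Tn M) {f : M.X → ℂ} {c : M.Fam ((Fin τ.N → Fin n) → ℂ)}
    (h : Mu M τ.s f c) : Mr M f :=
  ⟨_, inferInstance, τ.s, c, tn_dn τ, tn_O τ ▸ τ.dense_O.nonempty, h⟩

end Pool.Agent.Lib.SIE
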