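import Pool.Agent.Lib.SIE.Sch
import Pool.Agent.Lib.SG45.Loc

/-! The theorem of Siegel for quotients of holomorphic tensors. -/

open scoped Topology
open Set Filter Metric Asymptotics

noncomputable section

namespace Pool.Agent.Lib.SIE

open Pool.Agent.Lib.SV (E)
open Pool.Agent.Lib.HS32

variable {n k : ℕ} {M : Mf n} {z : Fin k → M.X → ℂ}

theorem arith (s a : ℕ) (p : ℕ) : s * (a * (p * (s * (a + 1) ^ k)) + p * (s * (a + 1) ^ k) + 1) ^ k <
    (s * (a + 1) ^ k + 1) * (p * (s * (a + 1) ^ k) + 1) ^ k := by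
  generalize p * (s * (a + 1) ^ k) = j
  calc _ ≤ s * ((a + 1) * (j + 1)) ^ k := by
        gcongr
        nlinarith
    _ = s * (a + 1) ^ k * (j + 1) ^ k := by rw [mul_pow, mul_assoc]
    _ < _ := by gcongr; exact Nat.lt_succ_self _

/-- The polynomial with given coefficients. -/
theorem poly {R : Type} [CommRing R] {N : ℕ} {P : Fin (N + 1) → R} (h : P ≠ 0) :
    ∃ Q : Polynomial R, Q ≠ 0 ∧ Q.natDegree ≤ N ∧ ∀ (φ : R →+* ℂ) (y : ℂ),
      Q.eval₂ φ y = ∑ t, φ (P t) * y ^ (t : ℕ) := by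
  refine ⟨∑ t : Fin (N + 1), Polynomial.monomial (t : ℕ) (P t), fun l => h (funext fun t => ?_),
    Polynomial.natDegree_sum_le_of_forall_le _ _ fun t _ =>
      (Polynomial.natDegree_monomial_le _).trans t.is_le, fun φ y => ?_⟩
  · have := congrArg (Polynomial.coeff · (t : ℕ)) l
    simp only [Polynomial.finsetSum_coeff, Polynomial.coeff_monomial, Fin.val_inj,
      Finset.sum_ite_eq', Finset.mem_univ, if_true, Polynomial.coeff_zero] at this
    exact this
  · simp only [Polynomial.eval₂_finsetSum, Polynomial.eval₂_monomial]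

/-- The theorem of Siegel. -/
theorem main [M.Cpt] (hz : ∀ j, Mr M (z j)) (h0 : ∃ x, Rk M z x) : ∃ N : ℕ, ∀ f, Mr M f →
    (∀ x, ¬Rk M (Fin.cons f z) x) → ∃ P : Polynomial (MvPolynomial (Fin k) ℂ), P ≠ 0 ∧
      P.natDegree ≤ N ∧ ∀ x, (∀ j, ContinuousAt (z j) x) → ContinuousAt f x →
        P.eval₂ (MvPolynomial.eval fun j => z j x) (f x) = 0 := by
  classical
  have hR := rk_dense hz h0
  choose τ _ B c hB hn hc using hz
  obtain ⟨V⟩ := exists_cv M
  choose p hp using fun j => (hB j).unif V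
  set a := ∑ j, p j with ha
  refine ⟨V.r * (a + 1) ^ k, ?_⟩
  rintro f ⟨σ, _, B', c', hB', hn', hc'⟩ hf
  obtain ⟨q, hq⟩ := hB'.unif V
  have ar := arith (k := k) V.r a q
  generalize V.r * (a + 1) ^ k = N at ar ⊢
  let O : Set M.X := ⋂₀ insert (Oo M B') (range fun j => Oo M (B j))
  have oo : ∀ t ∈ insert (Oo M B') (range fun j => Oo M (B j)), IsOpen t := by
    rintro _ (rfl | ⟨j, rfl⟩)
    exacts [hB'.opn, (hB j).opn]
  have o1 : IsOpen O := ((finite_range _).insert _).isOpen_sInter oo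
  have o2 : Dense O := ((finite_range _).insert _).dense_sInter oo (by
    rintro _ (rfl | ⟨j, rfl⟩)
    exacts [hB'.dense hn', (hB j).dense (hn j)])
  have o3 : ∀ x ∈ O, x ∈ Oo M B' ∧ ∀ j, x ∈ Oo M (B j) := fun x hx =>
    ⟨hx _ (mem_insert _ _), fun j => hx _ (mem_insert_of_mem _ ⟨j, rfl⟩)⟩
  have ct : ∀ b, V.c b ∈ (V.e b).target := fun b =>
    V.sub b (mem_closedBall_self (by linarith [V.pos b]))
  choose w hw using fun b => (((fr_dense (hR.inter_of_isOpen_right o2 o1) (ct b)).and_eventually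
    (ball_mem_nhds _ (half_pos (V.pos b)))).and_eventually
      ((V.e b).open_target.eventually_mem (ct b))).exists
  have rk := fun b => (hw b).1.1.1 _ (V.mem b) ((V.e b).map_target (hw b).2)
  simp only [fun b => (V.e b).right_inv (hw b).2] at rk
  have nb : ∀ b, ∀ᶠ u in 𝓝 (w b), u ∈ (V.e b).target ∧ (V.e b).symm u ∈ {x | Rk M z x} ∩ O :=
    fun b => ((V.e b).open_target.eventually_mem (hw b).2).and
      (((V.e b).continuousAt_symm (hw b).2).eventually
        ((rk_open.inter o1).eventually_mem (hw b).1.1))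
  have fh : ∀ b, ∀ u ∈ (V.e b).target, (V.e b).symm u ∈ O →
      HolN (fun v => f ((V.e b).symm v)) u := fun b u hu h =>
    hc'.hol hB' (V.mem b) hu ((hB'.mem' (V.mem b) hu).1 (o3 _ h).1)
  obtain ⟨P, P0, P1, P2⟩ := SG45.cnt (N := N) (j := q * N) (m := a * (q * N) + q * N)
    (fun b => rd M z (V.e b)) (fun b v => f ((V.e b).symm v)) w (fun b => (rk b).1)
    (fun b => fh b _ (hw b).2 (hw b).1.1.2) (fun b => (rk b).2)
    (fun b => (nb b).mono fun u l => ker_of hf (V.mem b) l.1 l.2.1 (fh b u l.1 l.2.2))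
    (by rwa [Fintype.card_fin])
  let G : M.X → ℂ := fun x => ∑ t, MvPolynomial.eval (fun j => z j x) (P t) * f x ^ (t : ℕ)
  let H : Fin V.r → E n → (∀ j, τ j) × σ → ℂ := fun b u I => ∑ t, (∑ α ∈ (P t).support,
    (P t).coeff α * ∏ j, c j (V.e b) u (I.1 j) ^ α j * B j (V.e b) u (I.1 j) ^ (q * N - α j)) *
      (c' (V.e b) u I.2 ^ (t : ℕ) * B' (V.e b) u I.2 ^ (N - t))
  have hH : ∀ b, ∀ u ∈ (V.e b).target, HolN (H b) u := fun b u hu => by
    filter_upwards [eventually_all.2 fun j => ((hB j).hol _ (V.mem b) u hu).and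
      (hc j _ (V.mem b) u hu).1, hB'.hol _ (V.mem b) u hu, (hc' _ (V.mem b) u hu).1]
      with v l1 l2 l3
    refine differentiableAt_pi.2 fun I => DifferentiableAt.fun_sum fun t _ =>
      (DifferentiableAt.fun_sum fun α _ => DifferentiableAt.const_mul ?_ _).fun_mul
        (((differentiableAt_pi.1 l3 _).fun_pow _).fun_mul ((differentiableAt_pi.1 l2 _).fun_pow _))
    exact (HasFDerivAt.finsetProd fun j _ => (((differentiableAt_pi.1 (l1 j).2 _).fun_pow
      _).fun_mul ((differentiableAt_pi.1 (l1 j).1 _).fun_pow _)).hasFDerivAt).differentiableAt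
  have ne : ∀ b, ∀ u ∈ (V.e b).target, (V.e b).symm u ∈ O →
      B' (V.e b) u ≠ 0 ∧ ∀ j, B j (V.e b) u ≠ 0 := fun b u hu h =>
    ⟨(hB'.mem' (V.mem b) hu).1 (o3 _ h).1, fun j => ((hB j).mem' (V.mem b) hu).1 ((o3 _ h).2 j)⟩
  have eH : ∀ b, ∀ u ∈ (V.e b).target, (V.e b).symm u ∈ O → H b u = fun I => G ((V.e b).symm u) *
      (∏ j, B j (V.e b) u (I.1 j) ^ (q * N)) * B' (V.e b) u I.2 ^ N := fun b u hu h => by
    funext I
    simp only [H, G, Finset.sum_mul, (hc' _ (V.mem b) u hu).2 (ne b u hu h).1,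
      fun j => (hc j _ (V.mem b) u hu).2 ((ne b u hu h).2 j), Pi.smul_apply, smul_eq_mul,
      MvPolynomial.eval_eq', mul_pow]
    refine Finset.sum_congr rfl fun t _ => Finset.sum_congr rfl fun α hα => ?_
    have : ∀ j, z j ((V.e b).symm u) ^ α j * B j (V.e b) u (I.1 j) ^ α j *
        B j (V.e b) u (I.1 j) ^ (q * N - α j) =
          z j ((V.e b).symm u) ^ α j * B j (V.e b) u (I.1 j) ^ (q * N) := fun j => by
      rw [mul_assoc, ← pow_add, Nat.add_sub_cancel'
        ((MvPolynomial.monomial_le_degreeOf j hα).trans (P1 t j))]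
    simp only [this, Finset.prod_mul_distrib]
    rw [mul_assoc (f _ ^ _), ← pow_add, Nat.add_sub_cancel' t.is_le]
    ring
  have nH : ∀ b, ∀ x ∈ O, x ∈ (V.e b).source → ‖H b (V.e b x)‖ = ‖G x‖ *
      (∏ j, ‖B j (V.e b) (V.e b x)‖ ^ (q * N)) * ‖B' (V.e b) (V.e b x)‖ ^ N := fun b x hx hs => by
    have l := (V.e b).left_inv hs
    have h := l.symm ▸ hx
    have m := ne b _ ((V.e b).map_source hs) h
    rw [eH b _ ((V.e b).map_source hs) h, nrm _ m.2 m.1, l]
  have z0 := sch V o2 hH (m := a * (q * N) + q * N) (c := w) (fun b b' x hx h1 h2 => by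
    rw [nH b x hx (V.src h1), nH b' x hx (V.src h2)]
    calc _ ≤ ‖G x‖ * (∏ j, (2 ^ p j * ‖B j (V.e b') (V.e b' x)‖) ^ (q * N)) *
          (2 ^ q * ‖B' (V.e b') (V.e b' x)‖) ^ N := by
          gcongr with j
          exacts [hp j b b' x h1 h2, hq b b' x h1 h2]
      _ = _ := by
          simp only [mul_pow, Finset.prod_mul_distrib, Finset.prod_pow,
            Finset.prod_pow_eq_pow_sum, ← ha, pow_add, pow_mul]
          ring) (fun b => (hw b).1.2) fun b => by
    have c1 : ContinuousAt (fun u => (∏ j, ‖B j (V.e b) u‖ ^ (q * N)) * ‖B' (V.e b) u‖ ^ N)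
        (w b) := ContinuousAt.mul (tendsto_finsetProd _ fun j _ =>
          ((hB j).hol _ (V.mem b) _ (hw b).2).self_of_nhds.continuousAt.norm.pow _)
            ((hB'.hol _ (V.mem b) _ (hw b).2).self_of_nhds.continuousAt.norm.pow _)
    refine IsBigO.of_norm_left ((((P2 b).norm_left.mul (c1.tendsto.isBigO_one ℝ)).congr' ?_
      (Eventually.of_forall fun u => mul_one _)))
    filter_upwards [nb b] with u l
    have m := ne b u l.1 l.2.2
    rw [eH b u l.1 l.2.2, nrm _ m.2 m.1, mul_assoc]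
    rfl
  have g0 : ∀ x ∈ O, G x = 0 := fun x hx => by
    obtain ⟨b, b1, b2⟩ := V.cov x
    have := nH b x hx b1
    rw [z0 b _ b2, norm_zero] at this
    have m := o3 x hx
    exact norm_eq_zero.1 ((mul_eq_zero.1 ((mul_eq_zero.1 this.symm).resolve_right
      (pow_ne_zero _ (norm_ne_zero_iff.2 (m.1 _ (V.mem b) b1))))).resolve_right
        (Finset.prod_ne_zero_iff.2 fun j _ =>
          pow_ne_zero _ (norm_ne_zero_iff.2 (m.2 j _ (V.mem b) b1))))
  obtain ⟨Q, Q0, Q1, Q2⟩ := poly P0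
  refine ⟨Q, Q0, Q1, fun x h1 h2 => ?_⟩
  have cG : ContinuousAt G x := tendsto_finsetSum _ fun t _ =>
    ((MvPolynomial.continuous_eval (P t)).continuousAt.comp (continuousAt_pi.2 h1)).mul (h2.pow _)
  rw [Q2]
  by_contra l
  obtain ⟨y, y1, y2⟩ := ((mem_closure_iff_frequently.1 (o2 x)).and_eventually
    (cG.eventually_ne l)).exists
  exact y2 (g0 y y1)

/-- Independent differentials give algebraically independent functions. -/
theorem ind {x : M.X} (h : Rk M z x) {Q : MvPolynomial (Fin k) ℂ}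
    (hQ : ∃ᶠ y in 𝓝 x, ∀ᶠ u in 𝓝 y, MvPolynomial.eval (fun j => z j u) Q = 0) : Q = 0 := by
  obtain ⟨y, y1, y2⟩ := (hQ.and_eventually (rk_open.eventually_mem h)).exists
  obtain ⟨e, he, hs⟩ := M.cov y
  obtain ⟨h1, h2⟩ := y2 e he hs
  have st := ((SV.H85.contDiffAt_nat h1 1).hasStrictFDerivAt one_ne_zero).map_nhds_eq_of_surj
    (LinearMap.range_eq_top.2 h2)
  have l : (fun y => MvPolynomial.eval y Q) =ᶠ[𝓝 (rd M z e (e y))] 0 := by
    rw [← st]
    exact (up hs).1 y1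
  refine MvPolynomial.funext fun t => ?_
  rw [map_zero]
  exact SV.H85.eq_zero_of_convex isOpen_univ convex_univ
    (AnalyticOnNhd.eval_mvPolynomial Q).differentiableOn (mem_univ _) l (mem_univ t)

/-- The theorem of Siegel for a family of functions. -/
theorem fam [M.Cpt] {S : Set (M.X → ℂ)} (hS : ∀ f ∈ S, Mr M f) :
    ∃ (k N : ℕ) (z : Fin k → M.X → ℂ), k ≤ n ∧ (∀ j, z j ∈ S) ∧ Dense {x | Rk M z x} ∧
      ∀ f ∈ S, (∀ x, ¬Rk M (Fin.cons f z) x) ∧ ∃ P : Polynomial (MvPolynomial (Fin k) ℂ), P ≠ 0 ∧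
        P.natDegree ≤ N ∧ ∀ x, (∀ j, ContinuousAt (z j) x) → ContinuousAt f x →
          P.eval₂ (MvPolynomial.eval fun j => z j x) (f x) = 0 := by
  classical
  let p : ℕ → Prop := fun k => ∃ z : Fin k → M.X → ℂ, (∀ j, z j ∈ S) ∧ ∃ x, Rk M z x
  have p0 : p 0 := ⟨Fin.elim0, fun j => j.elim0, Classical.arbitrary _, fun e _ _ =>
    ⟨Eventually.of_forall fun _ => differentiableAt_pi.2 fun j => j.elim0,
      fun y => ⟨0, Subsingleton.elim _ _⟩⟩⟩
  obtain ⟨z, z1, z2⟩ : p (Nat.findGreatest p n) := Nat.findGreatest_spec (Nat.zero_le n) p0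
  obtain ⟨N, hN⟩ := main (fun j => hS _ (z1 j)) z2
  have mx : ∀ f ∈ S, ∀ x, ¬Rk M (Fin.cons f z) x := fun f hf x h =>
    Nat.findGreatest_is_greatest (Nat.lt_succ_self _) (rk_le h)
      ⟨_, fun j => Fin.cases hf z1 j, x, h⟩
  exact ⟨_, N, z, Nat.findGreatest_le n, z1, rk_dense (fun j => hS _ (z1 j)) z2,
    fun f hf => ⟨mx f hf, hN f (hS f hf) (mx f hf)⟩⟩

end Pool.Agent.Lib.SIE
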