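import Pool.Agent.Lib.HS32.MBlue
import Pool.Agent.Lib.SV.Hol85

/-! Quotients of holomorphic tensors: denominators, numerators, points of maximal rank. -/

open scoped Topology
open Set Filter Metric

noncomputable section

namespace Pool.Agent.Lib.SIE

open Pool.Agent.Lib.SV (E)
open Pool.Agent.Lib.HS32

variable {n k : ℕ} (M : Mf n) {σ : Type} [Fintype σ]

/-- A holomorphic family whose size changes boundedly with the chart. -/
structure Dn (B : M.Fam (σ → ℂ)) : Prop where
  hol : M.All fun e z => HolN (B e) z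
  cmp : M.Ov fun e e' x => ∃ C : ℝ, ∀ᶠ y in 𝓝 x, ‖B e (e y)‖ ≤ C * ‖B e' (e' y)‖

/-- The family `c` is the holomorphic extension of `f B`. -/
def Mu (B : M.Fam (σ → ℂ)) (f : M.X → ℂ) (c : M.Fam (σ → ℂ)) : Prop :=
  M.All fun e z => HolN (c e) z ∧ (B e z ≠ 0 → c e z = f (e.symm z) • B e z)

/-- The set where `B` does not vanish. -/
def Oo (B : M.Fam (σ → ℂ)) : Set M.X := {x | ∀ e ∈ M.C, x ∈ e.source → B e (e x) ≠ 0}

/-- A quotient of holomorphic families. -/
def Mr (f : M.X → ℂ) : Prop := ∃ (σ : Type) (_ : Fintype σ) (B c : M.Fam (σ → ℂ)),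
  Dn M B ∧ (Oo M B).Nonempty ∧ Mu M B f c

/-- A tuple of functions read in a chart. -/
def rd (z : Fin k → M.X → ℂ) (e : M.Ch) (w : E n) : E k := fun j => z j (e.symm w)

/-- The tuple is a holomorphic submersion at `x`. -/
def Rk (z : Fin k → M.X → ℂ) (x : M.X) : Prop := ∀ e ∈ M.C, x ∈ e.source →
  HolN (rd M z e) (e x) ∧ Function.Surjective (fderiv ℂ (rd M z e) (e x))

end Pool.Agent.Lib.SIE
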