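import Pool.Agent.Lib.SIE.Gen

/-! The lemma of Schwarz over a finite covering by coordinate balls. -/

open scoped Topology
open Set Filter Metric Asymptotics

noncomputable section

namespace Pool.Agent.Lib.SIE

open Pool.Agent.Lib.SV (E)
open Pool.Agent.Lib.HS32

variable {n : ℕ} {M : Mf n}

/-- A finite covering by coordinate balls. -/
structure Cv (M : Mf n) where
  r : ℕ
  e : Fin r → M.Ch
  c : Fin r → E n
  ρ : Fin r → ℝ
  mem : ∀ a, e a ∈ M.C
  pos : ∀ a, 0 < ρ a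
  sub : ∀ a, closedBall (c a) (4 * ρ a) ⊆ (e a).target
  cov : ∀ x, ∃ a, x ∈ (e a).source ∧ e a x ∈ ball (c a) (ρ a)

theorem exists_cv (M : Mf n) [M.Cpt] : Nonempty (Cv M) := by
  choose e he hs using M.cov
  have : ∀ x, ∃ ρ > 0, closedBall (e x x) (4 * ρ) ⊆ (e x).target := fun x => by
    obtain ⟨r, hr, h⟩ := nhds_basis_closedBall.mem_iff.1
      ((e x).open_target.mem_nhds ((e x).map_source (hs x)))
    exact ⟨r / 4, by positivity, by rwa [mul_div_cancel₀ _ (by norm_num)]⟩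
  choose ρ h1 h2 using this
  obtain ⟨t, -, ht⟩ := isCompact_univ.elim_nhds_subcover
    (fun x => (e x).source ∩ e x ⁻¹' ball (e x x) (ρ x)) fun x _ =>
      inter_mem ((e x).open_source.mem_nhds (hs x))
        ((e x).continuousAt (hs x) (ball_mem_nhds _ (h1 x)))
  let q : Fin t.card → M.X := fun a => (t.equivFin.symm a).1
  refine ⟨⟨t.card, fun a => e (q a), fun a => e (q a) (q a), fun a => ρ (q a), fun a => he _,
    fun a => h1 _, fun a => h2 _, fun x => ?_⟩⟩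
  obtain ⟨y, hy, h⟩ := mem_iUnion₂.1 (ht (mem_univ x))
  refine ⟨t.equivFin ⟨y, hy⟩, ?_⟩
  simp only [q, Equiv.symm_apply_apply]
  exact h

variable (V : Cv M)

/-- The large closed piece. -/
def Cv.K (a : Fin V.r) : Set M.X := (V.e a).symm '' closedBall (V.c a) (4 * V.ρ a)

theorem Cv.cpt (a : Fin V.r) : IsCompact (V.K a) :=
  (isCompact_closedBall _ _).image_of_continuousOn ((V.e a).continuousOn_symm.mono (V.sub a))

theorem Cv.src {a : Fin V.r} {x : M.X} (h : x ∈ V.K a) : x ∈ (V.e a).source := by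
  obtain ⟨w, hw, rfl⟩ := h
  exact (V.e a).map_target (V.sub a hw)

theorem Dn.unif [M.Cpt] {σ : Type} [Fintype σ] {B : M.Fam (σ → ℂ)} (hB : Dn M B) : ∃ p : ℕ,
    ∀ a b, ∀ x ∈ V.K a, x ∈ V.K b → ‖B (V.e a) (V.e a x)‖ ≤ 2 ^ p * ‖B (V.e b) (V.e b x)‖ := by
  have mo : ∀ {p q : ℕ} {s t : ℝ}, p ≤ q → 0 ≤ t → s ≤ 2 ^ p * t → s ≤ 2 ^ q * t := fun h h0 k =>
    k.trans (mul_le_mul_of_nonneg_right (pow_le_pow_right₀ one_le_two h) h0)
  have : ∀ ab : Fin V.r × Fin V.r, ∃ p : ℕ, ∀ x ∈ V.K ab.1 ∩ V.K ab.2,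
      ‖B (V.e ab.1) (V.e ab.1 x)‖ ≤ 2 ^ p * ‖B (V.e ab.2) (V.e ab.2 x)‖ := fun ab => by
    refine ((V.cpt ab.1).inter_right (V.cpt ab.2).isClosed).induction_on (p := fun S => ∃ p : ℕ,
      ∀ x ∈ S, ‖B (V.e ab.1) (V.e ab.1 x)‖ ≤ 2 ^ p * ‖B (V.e ab.2) (V.e ab.2 x)‖)
      ⟨0, fun _ h => h.elim⟩ (fun s t h ⟨p, hp⟩ => ⟨p, fun x hx => hp x (h hx)⟩)
      (fun s t ⟨p, hp⟩ ⟨q, hq⟩ => ⟨max p q, fun x hx => hx.elim
        (fun h => mo (le_max_left _ _) (norm_nonneg _) (hp x h))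
        fun h => mo (le_max_right _ _) (norm_nonneg _) (hq x h)⟩) fun x hx => ?_
    obtain ⟨C, hC⟩ := hB.cmp _ (V.mem ab.1) _ (V.mem ab.2) x (V.src hx.1) (V.src hx.2)
    obtain ⟨p, hp⟩ := pow_unbounded_of_one_lt C (one_lt_two (α := ℝ))
    exact ⟨_, mem_nhdsWithin_of_mem_nhds hC, p, fun y hy =>
      le_trans hy (mul_le_mul_of_nonneg_right hp.le (norm_nonneg _))⟩
  choose p hp using this
  exact ⟨Finset.univ.sup p, fun a b x h1 h2 =>
    mo (Finset.le_sup (Finset.mem_univ (a, b))) (norm_nonneg _) (hp (a, b) x ⟨h1, h2⟩)⟩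

theorem sch {F : Type} [NormedAddCommGroup F] [NormedSpace ℂ F] {O : Set M.X} (hO : Dense O)
    {H : Fin V.r → E n → F} (hH : ∀ a, ∀ w ∈ (V.e a).target, HolN (H a) w) {m : ℕ}
    (hc : ∀ a b, ∀ x ∈ O, x ∈ V.K a → x ∈ V.K b → ‖H a (V.e a x)‖ ≤ 2 ^ m * ‖H b (V.e b x)‖)
    {c : Fin V.r → E n} (h1 : ∀ a, c a ∈ ball (V.c a) (V.ρ a / 2))
    (h2 : ∀ a, H a =O[𝓝 (c a)] fun w => ‖w - c a‖ ^ (m + 1)) :
    ∀ a, ∀ w ∈ ball (V.c a) (V.ρ a), H a w = 0 := by
  have sb : ∀ a, ball (V.c a) (V.ρ a) ⊆ closedBall (V.c a) (4 * V.ρ a) := fun a =>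
    ball_subset_closedBall.trans (closedBall_subset_closedBall (by linarith [V.pos a]))
  have st : ∀ s : ℝ, (∀ a, ∀ w ∈ ball (V.c a) (V.ρ a), ‖H a w‖ ≤ s) →
      ∀ a, ∀ w ∈ ball (V.c a) (V.ρ a), ‖H a w‖ ≤ s / 2 := fun s hs a w hw => by
    have p := V.pos a
    have big : ∀ u ∈ ball (V.c a) (4 * V.ρ a), ‖H a u‖ ≤ 2 ^ m * s := fun u hu => by
      have ht := V.sub a (ball_subset_closedBall hu)
      refine le_of_not_gt fun l => ?_
      obtain ⟨v, ⟨v1, v2⟩, v3⟩ := (((fr_dense hO ht).and_eventually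
        (isOpen_ball.eventually_mem hu)).and_eventually (continuousAt_const.eventually_lt
          (hH a u ht).self_of_nhds.continuousAt.norm l)).exists
      obtain ⟨b, b1, b2⟩ := V.cov ((V.e a).symm v)
      have := hc a b _ v1 ⟨v, ball_subset_closedBall v2, rfl⟩ ⟨_, sb b b2, (V.e b).left_inv b1⟩
      rw [(V.e a).right_inv (V.sub a (ball_subset_closedBall v2))] at this
      exact v3.not_ge (this.trans (mul_le_mul_of_nonneg_left (hs b _ b2) (by positivity)))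
    have d1 := mem_ball.1 (h1 a)
    have sb' : ball (c a) (3 * V.ρ a) ⊆ ball (V.c a) (4 * V.ρ a) :=
      ball_subset_ball' (by linarith)
    have z0 : H a (c a) = 0 := by
      have := (h2 a).bound.choose_spec.self_of_nhds
      simpa using this
    have dw : dist w (c a) ≤ 3 * V.ρ a / 2 := by
      have := dist_triangle_right w (c a) (V.c a)
      linarith [mem_ball.1 hw]
    have k := Complex.dist_le_mul_div_pow_of_mapsTo_ball_of_isLittleO (f := H a) (c := c a)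
      (z := w) (R₁ := 3 * V.ρ a) (R₂ := 2 ^ m * s) (n := m)
      (fun u hu => (hH a u (V.sub a (ball_subset_closedBall (sb' hu)))).self_of_nhds
        |>.differentiableWithinAt)
      (fun u hu => by rw [z0, mem_closedBall_zero_iff]; exact big u (sb' hu))
      (by
        simp only [z0, sub_zero]
        exact (h2 a).trans_isLittleO ((isLittleO_pow_pow m.lt_succ_self).comp_tendsto
          (tendsto_norm_sub_self _)))
      (mem_ball.2 (by linarith))
    have s0 : 0 ≤ s := (norm_nonneg _).trans (hs a w hw)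
    rw [z0, dist_zero_right] at k
    refine k.trans ?_
    have q : dist w (c a) / (3 * V.ρ a) ≤ 1 / 2 := by
      rw [div_le_iff₀ (by positivity)]
      linarith
    calc _ ≤ 2 ^ m * s * (1 / 2) ^ (m + 1) := by gcongr
      _ = s / 2 := by
          rw [pow_succ, one_div, inv_pow]
          field_simp
  have : ∀ a, ∃ s, ∀ w ∈ closedBall (V.c a) (4 * V.ρ a), ‖H a w‖ ≤ s := fun a =>
    (isCompact_closedBall _ _).exists_bound_of_continuousOn fun w hw =>
      (hH a w (V.sub a hw)).self_of_nhds.continuousAt.continuousWithinAt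
  choose s hs using this
  have it : ∀ j : ℕ, ∀ a, ∀ w ∈ ball (V.c a) (V.ρ a), ‖H a w‖ ≤ (∑ a, |s a|) * (1 / 2) ^ j := by
    intro j
    induction j with
    | zero => exact fun a w hw => (hs a w (sb a hw)).trans ((le_abs_self _).trans (by
        simpa using Finset.single_le_sum (fun a _ => abs_nonneg (s a)) (Finset.mem_univ a)))
    | succ j ih => exact fun a w hw => (st _ ih a w hw).trans_eq (by ring)
  intro a w hw
  have l := (tendsto_pow_atTop_nhds_zero_of_lt_one (r := (1 / 2 : ℝ)) (by norm_num)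
    (by norm_num)).const_mul (∑ a, |s a|)
  rw [mul_zero] at l
  exact norm_le_zero_iff.1 (ge_of_tendsto' l fun j => it j a w hw)

theorem exn {σ : Type} [Fintype σ] {b : σ → ℂ} (h : b ≠ 0) : ∃ i, ‖b i‖ = ‖b‖ := by
  obtain ⟨i0, -⟩ := Function.ne_iff.1 h
  obtain ⟨i, -, hi⟩ := Finset.exists_max_image Finset.univ (fun i => ‖b i‖) ⟨i0, Finset.mem_univ _⟩
  exact ⟨i, (norm_le_pi_norm b i).antisymm
    ((pi_norm_le_iff_of_nonneg (norm_nonneg _)).2 fun j => hi j (Finset.mem_univ _))⟩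

theorem nrm {ι σ' : Type} [Fintype ι] [DecidableEq ι] [Fintype σ'] {σ : ι → Type}
    [∀ j, Fintype (σ j)] (g : ℂ) {b : ∀ j, σ j → ℂ} {b' : σ' → ℂ} (hb : ∀ j, b j ≠ 0)
    (hb' : b' ≠ 0) (d N : ℕ) : ‖fun I : (∀ j, σ j) × σ' => g * (∏ j, b j (I.1 j) ^ d) * b' I.2 ^ N‖ =
      ‖g‖ * (∏ j, ‖b j‖ ^ d) * ‖b'‖ ^ N := by
  refine le_antisymm ((pi_norm_le_iff_of_nonneg (by positivity)).2 fun I => ?_) ?_
  · simp only [norm_mul, norm_prod, norm_pow]
    gcongr <;> exact norm_le_pi_norm _ _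
  · choose I hI using fun j => exn (hb j)
    obtain ⟨J, hJ⟩ := exn hb'
    refine le_of_eq_of_le ?_ (norm_le_pi_norm _ (I, J))
    simp only [norm_mul, norm_prod, norm_pow, hI, hJ]

end Pool.Agent.Lib.SIE
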